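import Mathlib

/-!
# Weighted transfer inequality for the permutation `2m ↦ 3m`, `4m ± 1 ↦ 3m ± 1`
-/

open Finset

namespace GPerm

/-- the permutation of the problem -/
def g (n : ℕ) : ℕ := if n % 2 = 0 then 3 * (n / 2) else (3 * n + 1) / 4

lemma g_inj : Function.Injective g := by
  intro a b h
  unfold g at h
  split_ifs at h <;> omega

/-- the weight of one step -/
noncomputable def w (n : ℕ) : ℝ := if n % 2 = 0 then 8164966 / 10000000 else 11547200 / 10000000

lemma w_nonneg (n : ℕ) : 0 ≤ w n := by unfold w; split_ifs <;> norm_num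

/-- the weight of an orbit segment -/
noncomputable def W : ℕ → ℕ → ℝ
  | 0, _ => 1
  | k + 1, n => w n * W k (g n)

lemma W_nonneg (k n : ℕ) : 0 ≤ W k n := by
  induction k generalizing n with
  | zero => simp [W]
  | succ k ih => exact mul_nonneg (w_nonneg n) (ih _)

/-- the numbers `n ≤ X` in a class modulo `q` -/
def S (X q b : ℕ) : Finset ℕ := (range (X + 1)).filter (fun n => n % q = b % q)

lemma mem_S {X q b n : ℕ} : n ∈ S X q b ↔ n ≤ X ∧ n % q = b % q := by
  unfold S
  rw [mem_filter, mem_range, Nat.lt_succ_iff]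

lemma card_S (X q b : ℕ) : ((S X q b).card : ℝ) ≤ (X : ℝ) / q + 1 := by
  have h1 : (S X q b).card ≤ (range (X / q + 1)).card := by
    apply Finset.card_le_card_of_injOn (fun n => n / q)
    · intro n hn
      have hn' := mem_S.1 (Finset.mem_coe.1 hn)
      rw [Finset.mem_coe, mem_range, Nat.lt_succ_iff]
      exact Nat.div_le_div_right hn'.1
    · intro n hn m hm h
      have hn' := mem_S.1 (Finset.mem_coe.1 hn)
      have hm' := mem_S.1 (Finset.mem_coe.1 hm)
      have h' : n / q = m / q := h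
      rw [← Nat.div_add_mod n q, ← Nat.div_add_mod m q, h', hn'.2, hm'.2]
  rw [card_range] at h1
  have h2 : ((S X q b).card : ℝ) ≤ ((X / q : ℕ) : ℝ) + 1 := by exact_mod_cast h1
  have h3 : ((X / q : ℕ) : ℝ) ≤ (X : ℝ) / q := Nat.cast_div_le
  linarith

/-- one branch of the permutation -/
lemma branch (c a : ℕ) (X q b X' : ℕ) (hc : Nat.Coprime q c) (d : ℕ)
    (hg : ∀ n, n % c = a → g n = 3 * (n / c) + d) (hX : ∀ n, n ≤ X → n % c = a → g n ≤ X')
    (f : ℕ → ℝ) (hf : ∀ n, 0 ≤ f n) :
    ∃ b', ∑ n ∈ (S X q b).filter (fun n => n % c = a), f (g n) ≤ ∑ m ∈ S X' (3 * q) b', f m := by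
  rcases ((S X q b).filter (fun n => n % c = a)).eq_empty_or_nonempty with he | ⟨n0, hn0⟩
  · refine ⟨0, ?_⟩
    rw [he, sum_empty]
    exact sum_nonneg (fun m _ => hf m)
  · refine ⟨g n0, ?_⟩
    have h0 := mem_filter.1 hn0
    have h0' := mem_S.1 h0.1
    have h1 : ∑ n ∈ (S X q b).filter (fun n => n % c = a), f (g n)
        = ∑ m ∈ ((S X q b).filter (fun n => n % c = a)).image g, f m := by
      rw [sum_image (g_inj.injOn)]
    rw [h1]
    apply sum_le_sum_of_subset_of_nonneg
    · intro m hm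
      rw [mem_image] at hm
      obtain ⟨n, hn, rfl⟩ := hm
      have hn1 := mem_filter.1 hn
      have hn2 := mem_S.1 hn1.1
      rw [mem_S]
      refine ⟨hX n hn2.1 hn1.2, ?_⟩
      rw [hg n hn1.2, hg n0 h0.2]
      have e1 : n ≡ n0 [MOD q] := by
        unfold Nat.ModEq; rw [hn2.2, h0'.2]
      have e2 : c * (n / c) + a ≡ c * (n0 / c) + a [MOD q] := by
        have i1 := Nat.div_add_mod n c
        have i2 := Nat.div_add_mod n0 c
        rw [hn1.2] at i1
        rw [h0.2] at i2
        rw [i1, i2]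
        exact e1
      have e3 : c * (n / c) ≡ c * (n0 / c) [MOD q] := Nat.ModEq.add_right_cancel' a e2
      have e4 : n / c ≡ n0 / c [MOD q] := Nat.ModEq.cancel_left_of_coprime hc e3
      exact Nat.ModEq.add_right d (Nat.ModEq.mul_left' 3 e4)
    · intro m _ _
      exact hf m

noncomputable def lam : ℝ := 98560830 / 100000000
noncomputable def Bt : ℝ := 312596 / 100000

theorem main_bd (k : ℕ) : ∀ X q b, 0 < q → Nat.Coprime q 2 →
    ∑ n ∈ S X q b, W k n ≤ lam ^ k * ((X : ℝ) / q) + 10000 * Bt ^ k := by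
  induction k with
  | zero =>
    intro X q b _ _
    have h1 := card_S X q b
    have e : ∑ n ∈ S X q b, W 0 n = ((S X q b).card : ℝ) := by
      simp [W]
    rw [e, pow_zero, pow_zero]
    linarith
  | succ k ih =>
    intro X q b hq hc
    have hc4 : Nat.Coprime q 4 := by
      have : (4 : ℕ) = 2 ^ 2 := by norm_num
      rw [this]
      exact Nat.Coprime.pow_right 2 hc
    have hc3 : Nat.Coprime (3 * q) 2 := Nat.Coprime.mul_left (by norm_num) hc
    obtain ⟨b0, h0⟩ := branch 2 0 X q b (3 * (X / 2)) hc 0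
      (by intro n hn; unfold g; rw [if_pos hn]; omega)
      (by intro n hn h; unfold g; rw [if_pos h]; omega) (W k) (W_nonneg k)
    obtain ⟨b1, h1⟩ := branch 4 1 X q b ((3 * X + 1) / 4) hc4 1
      (by intro n hn; unfold g; rw [if_neg (by omega)]; omega)
      (by intro n hn h; unfold g; rw [if_neg (by omega)]; omega) (W k) (W_nonneg k)
    obtain ⟨b3, h3⟩ := branch 4 3 X q b ((3 * X + 1) / 4) hc4 2
      (by intro n hn; unfold g; rw [if_neg (by omega)]; omega)
      (by intro n hn h; unfold g; rw [if_neg (by omega)]; omega) (W k) (W_nonneg k)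
    have i0 := ih (3 * (X / 2)) (3 * q) b0 (by omega) hc3
    have i1 := ih ((3 * X + 1) / 4) (3 * q) b1 (by omega) hc3
    have i3 := ih ((3 * X + 1) / 4) (3 * q) b3 (by omega) hc3
    have hq' : (0 : ℝ) < q := by exact_mod_cast hq
    have hq1 : (1 : ℝ) ≤ q := by exact_mod_cast hq
    have hsplit : ∑ n ∈ S X q b, W (k + 1) n
        = 8164966 / 10000000 * ∑ n ∈ (S X q b).filter (fun n => n % 2 = 0), W k (g n)
        + 11547200 / 10000000 * ∑ n ∈ (S X q b).filter (fun n => n % 4 = 1), W k (g n)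
        + 11547200 / 10000000 * ∑ n ∈ (S X q b).filter (fun n => n % 4 = 3), W k (g n) := by
      rw [sum_filter, sum_filter, sum_filter, mul_sum, mul_sum, mul_sum, ← sum_add_distrib,
        ← sum_add_distrib]
      apply sum_congr rfl
      intro n _
      show w n * W k (g n) = _
      unfold w
      by_cases a2 : n % 2 = 0
      · have a1 : ¬ n % 4 = 1 := by omega
        have a3 : ¬ n % 4 = 3 := by omega
        rw [if_pos a2, if_pos a2, if_neg a1, if_neg a3]
        ring
      · by_cases a1 : n % 4 = 1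
        · have a3 : ¬ n % 4 = 3 := by omega
          rw [if_neg a2, if_neg a2, if_pos a1, if_neg a3]
          ring
        · have a3 : n % 4 = 3 := by omega
          rw [if_neg a2, if_neg a2, if_neg a1, if_pos a3]
          ring
    have x0 : (((3 * (X / 2) : ℕ) : ℝ) / ((3 * q : ℕ) : ℝ)) ≤ (X : ℝ) / q / 2 := by
      have : ((X / 2 : ℕ) : ℝ) ≤ (X : ℝ) / 2 := Nat.cast_div_le
      push_cast
      rw [div_div, div_le_div_iff₀ (by positivity) (by positivity)]
      nlinarith
    have x1 : (((((3 * X + 1) / 4 : ℕ)) : ℝ) / ((3 * q : ℕ) : ℝ)) ≤ (X : ℝ) / q / 4 + 1 / 12 := by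
      have : (((3 * X + 1) / 4 : ℕ) : ℝ) ≤ ((3 * X + 1 : ℕ) : ℝ) / 4 := Nat.cast_div_le
      push_cast at this ⊢
      have e : (X : ℝ) / q / 4 + 1 / 12 = (3 * X + q) / (12 * q) := by
        field_simp
        ring
      rw [e, div_le_div_iff₀ (by positivity) (by positivity)]
      nlinarith
    have hL : 0 ≤ lam ^ k := by unfold lam; positivity
    have hM : 0 ≤ Bt ^ k := by unfold Bt; positivity
    have hLM : lam ^ k ≤ Bt ^ k := by
      apply pow_le_pow_left₀
      · unfold lam; norm_num
      · unfold lam Bt; norm_num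
    have y0 := mul_le_mul_of_nonneg_left x0 hL
    have y1 := mul_le_mul_of_nonneg_left x1 hL
    have hY : 0 ≤ lam ^ k * ((X : ℝ) / q) := by positivity
    rw [hsplit, pow_succ, pow_succ]
    have el : lam ^ k * lam * ((X : ℝ) / q) = lam ^ k * ((X : ℝ) / q) * (98560830 / 100000000) := by
      rw [show lam ^ k * lam = lam ^ k * (98560830 / 100000000) from rfl]
      ring
    have eb : 10000 * (Bt ^ k * Bt) = Bt ^ k * 31259.6 := by
      rw [show Bt ^ k * Bt = Bt ^ k * (312596 / 100000) from rfl]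
      ring
    rw [el, eb]
    linarith

end GPerm
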