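import Mathlib
import Pool.Agent.Lib.GPerm.Trans

/-!
# Expansion of the permutation `2m ↦ 3m`, `4m ± 1 ↦ 3m ± 1` on intervals
-/

open Finset

namespace GPerm

lemma total_bd (s : ℝ) (hs : 1 ≤ s) (X : ℕ) (hX : (X : ℝ) ≤ s ^ 80) :
    ∃ K, (lam⁻¹) ^ K ≤ s ∧ ∑ n ∈ range (X + 1), W K n ≤ 10002 * s ^ 79 := by
  have hlam : 0 < lam := by unfold lam; norm_num
  have hrho : 1 < lam⁻¹ := by unfold lam; norm_num
  have hrho2 : lam⁻¹ ≤ 2 := by unfold lam; norm_num
  have hBt : 0 ≤ Bt := by unfold Bt; norm_num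
  have hBr : Bt ≤ (lam⁻¹) ^ 79 := by unfold lam Bt; norm_num
  obtain ⟨K, hK1, hK2⟩ := exists_nat_pow_near hs hrho
  refine ⟨K, hK1, ?_⟩
  have hs0 : 0 ≤ s := by linarith
  have e0 : S X 1 0 = range (X + 1) := by
    ext n
    rw [mem_S, mem_range, Nat.lt_succ_iff]
    simp [Nat.mod_one]
  have h0 := main_bd K X 1 0 (by norm_num) (by norm_num)
  rw [e0] at h0
  have h1 : lam ^ K * s ≤ 2 := by
    have : lam ^ K * s ≤ lam ^ K * (lam⁻¹) ^ (K + 1) :=
      mul_le_mul_of_nonneg_left hK2.le (by positivity)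
    have e : lam ^ K * (lam⁻¹) ^ (K + 1) = lam⁻¹ := by
      rw [pow_succ, ← mul_assoc, ← mul_pow, mul_inv_cancel₀ hlam.ne', one_pow, one_mul]
    rw [e] at this
    linarith
  have h2 : lam ^ K * (X : ℝ) ≤ 2 * s ^ 79 := by
    calc lam ^ K * (X : ℝ) ≤ lam ^ K * s ^ 80 := mul_le_mul_of_nonneg_left hX (by positivity)
      _ = (lam ^ K * s) * s ^ 79 := by ring
      _ ≤ 2 * s ^ 79 := mul_le_mul_of_nonneg_right h1 (by positivity)
  have h3 : Bt ^ K ≤ s ^ 79 := by
    calc Bt ^ K ≤ ((lam⁻¹) ^ 79) ^ K := pow_le_pow_left₀ hBt hBr K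
      _ = ((lam⁻¹) ^ K) ^ 79 := by rw [← pow_mul, ← pow_mul, mul_comm]
      _ ≤ s ^ 79 := pow_le_pow_left₀ (by positivity) hK1 79
  simp only [Nat.cast_one, div_one] at h0
  linarith

lemma g_pos (n : ℕ) (hn : 1 ≤ n) : 1 ≤ g n := by
  unfold g
  split_ifs <;> omega

lemma step_bd (n : ℕ) (hn : 10000 ≤ n) : (n : ℝ) ≤ g n * w n ^ 2 := by
  unfold g w
  by_cases h : n % 2 = 0
  · rw [if_pos h, if_pos h]
    obtain ⟨m, rfl⟩ : ∃ m, n = 2 * m := ⟨n / 2, by omega⟩
    rw [Nat.mul_div_cancel_left m (by norm_num)]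
    have : (0 : ℝ) ≤ m := by positivity
    push_cast
    nlinarith
  · rw [if_neg h, if_neg h]
    have h1 : 3 * n ≤ 4 * ((3 * n + 1) / 4) + 1 := by omega
    have h2 : (3 : ℝ) * n ≤ 4 * (((3 * n + 1) / 4 : ℕ) : ℝ) + 1 := by exact_mod_cast h1
    have h3 : (10000 : ℝ) ≤ n := by exact_mod_cast hn
    set z : ℝ := (((3 * n + 1) / 4 : ℕ) : ℝ) with hz
    have e : ((11547200 : ℝ) / 10000000) ^ 2 = 1.3333782784 := by norm_num
    rw [e]
    linarith

lemma orbit_bd (K : ℕ) : ∀ n, (∀ i, i < K → 10000 ≤ g^[i] n) →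
    (n : ℝ) ≤ (g^[K] n : ℝ) * W K n ^ 2 := by
  induction K with
  | zero => intro n _; simp [W]
  | succ K ih =>
    intro n h
    have h0 : 10000 ≤ n := by
      have := h 0 (Nat.succ_pos K)
      simpa using this
    have h1 := step_bd n h0
    have h2 := ih (g n) (fun i hi => by
      have := h (i + 1) (by omega)
      rwa [Function.iterate_succ_apply] at this)
    rw [Function.iterate_succ_apply]
    show (n : ℝ) ≤ (g^[K] (g n) : ℝ) * (w n * W K (g n)) ^ 2
    have h3 : 0 ≤ w n ^ 2 := by positivity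
    calc (n : ℝ) ≤ (g n : ℝ) * w n ^ 2 := h1
      _ ≤ ((g^[K] (g n) : ℝ) * W K (g n) ^ 2) * w n ^ 2 := mul_le_mul_of_nonneg_right h2 h3
      _ = _ := by ring

lemma markov (K X : ℕ) (A : Finset ℕ) (t : ℝ) (ht : 0 < t) (hA : A ⊆ range (X + 1))
    (h : ∀ n ∈ A, 1 ≤ t * W K n) : (A.card : ℝ) ≤ t * ∑ n ∈ range (X + 1), W K n := by
  calc (A.card : ℝ) = ∑ n ∈ A, (1 : ℝ) := by simp
    _ ≤ ∑ n ∈ A, t * W K n := sum_le_sum h
    _ = t * ∑ n ∈ A, W K n := by rw [mul_sum]
    _ ≤ t * ∑ n ∈ range (X + 1), W K n := by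
      apply mul_le_mul_of_nonneg_left _ ht.le
      exact sum_le_sum_of_subset_of_nonneg hA (fun n _ _ => W_nonneg K n)

/-- the numbers up to `y` whose first iterates are all in `[10000, M]` -/
def T (M K y : ℕ) : Finset ℕ :=
  (Icc 1 y).filter (fun n => ∀ i ≤ K, 10000 ≤ g^[i] n ∧ g^[i] n ≤ M)

theorem card_T (M K : ℕ) (hM : 1 ≤ M)
    (hK : ∀ K' : ℕ, (lam⁻¹) ^ K' ≤ (M : ℝ) ^ (1 / 80 : ℝ) → K' ≤ K) (y : ℕ) : y ≤ M →
    ((T M K y).card : ℝ) ≤ 60012 * (M : ℝ) ^ (1 / 2 : ℝ) * (y : ℝ) ^ (39 / 80 : ℝ) := by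
  induction y using Nat.strong_induction_on with
  | _ y ih =>
    intro hyM
    rcases Nat.eq_zero_or_pos y with h0 | hy
    · subst h0
      have : T M K 0 = ∅ := by
        unfold T
        simp
      rw [this, card_empty, Nat.cast_zero]
      positivity
    · have hy0 : (0 : ℝ) < y := by exact_mod_cast hy
      have hy1 : (1 : ℝ) ≤ y := by exact_mod_cast hy
      have hyM' : (y : ℝ) ≤ M := by exact_mod_cast hyM
      have hM0 : (0 : ℝ) < M := by exact_mod_cast hM
      set s : ℝ := (y : ℝ) ^ (1 / 80 : ℝ) with hs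
      have hs1 : 1 ≤ s := Real.one_le_rpow hy1 (by norm_num)
      have hs39 : (y : ℝ) ^ (39 / 80 : ℝ) = s ^ 39 := by
        rw [hs, ← Real.rpow_natCast, ← Real.rpow_mul hy0.le]
        norm_num
      have hs80 : (y : ℝ) = s ^ 80 := by
        rw [hs, ← Real.rpow_natCast, ← Real.rpow_mul hy0.le]
        norm_num
      set a : ℝ := (M : ℝ) ^ (1 / 2 : ℝ) with ha
      have ha0 : 0 < a := Real.rpow_pos_of_pos hM0 _
      have ha2 : a ^ 2 = M := by
        rw [ha, ← Real.rpow_natCast, ← Real.rpow_mul hM0.le]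
        norm_num
      obtain ⟨K', hK1, hK'⟩ := total_bd s hs1 y hs80.le
      have hKK : K' ≤ K := hK K' (hK1.trans (Real.rpow_le_rpow hy0.le hyM' (by norm_num)))
      have hsplit := Finset.card_filter_add_card_filter_not (s := T M K y)
        (fun n => 2 * n ≤ y)
      have hB : ((T M K y).filter (fun n => 2 * n ≤ y)).card ≤ (T M K (y / 2)).card := by
        apply card_le_card
        intro n hn
        have h1 := mem_filter.1 hn
        have h2 := mem_filter.1 h1.1
        have h3 := mem_Icc.1 h2.1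
        have h4 := h1.2
        unfold T
        rw [mem_filter, mem_Icc]
        exact ⟨⟨h3.1, by omega⟩, h2.2⟩
      have hi := ih (y / 2) (Nat.div_lt_self hy (by norm_num)) (by omega)
      set r : ℝ := 1.5 with hr
      set t : ℝ := r * a / s ^ 40 with ht
      have hs40 : 0 < s ^ 40 := by positivity
      have ht0 : 0 < t := by rw [ht, hr]; positivity
      have hA : ((((T M K y).filter (fun n => ¬ 2 * n ≤ y)).card : ℕ) : ℝ)
          ≤ t * ∑ n ∈ range (y + 1), W K' n := by
        apply markov K' y _ t ht0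
        · intro n hn
          have h1 := mem_filter.1 hn
          have h2 := mem_filter.1 h1.1
          have h3 := mem_Icc.1 h2.1
          rw [mem_range]
          omega
        · intro n hn
          have h1 := mem_filter.1 hn
          have h2 := mem_filter.1 h1.1
          have h3 := orbit_bd K' n (fun i hi => (h2.2 i (by omega)).1)
          have h4 : ((g^[K'] n : ℕ) : ℝ) ≤ M := by exact_mod_cast (h2.2 K' hKK).2
          have hW := W_nonneg K' n
          have h5 : (y : ℝ) ≤ 2 * n := by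
            have : y ≤ 2 * n := by
              have := h1.2
              omega
            exact_mod_cast this
          have h6 : (n : ℝ) ≤ M * W K' n ^ 2 :=
            h3.trans (mul_le_mul_of_nonneg_right h4 (by positivity))
          have h7 : s ^ 80 ≤ 2 * (a ^ 2 * W K' n ^ 2) := by
            rw [← hs80, ha2]
            linarith
          have h8 : 1 < (t * W K' n) ^ 2 := by
            have e : (t * W K' n) ^ 2 = 2.25 * (a ^ 2 * W K' n ^ 2) / s ^ 80 := by
              rw [ht, hr]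
              field_simp
              ring
            rw [e, lt_div_iff₀ (by positivity)]
            have : 0 < s ^ 80 := by positivity
            linarith
          by_contra hc
          push Not at hc
          have : (t * W K' n) ^ 2 ≤ 1 := pow_le_one₀ (mul_nonneg ht0.le hW) hc.le
          linarith
      have h14 : (1.4 : ℝ) ≤ (2 : ℝ) ^ (39 / 80 : ℝ) := by
        have h1 : (1.4 : ℝ) ^ 80 ≤ 2 ^ 39 := by norm_num
        have h2 : ((1.4 : ℝ) ^ 80) ^ (1 / 80 : ℝ) ≤ ((2 : ℝ) ^ 39) ^ (1 / 80 : ℝ) :=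
          Real.rpow_le_rpow (by norm_num) h1 (by norm_num)
        rw [← Real.rpow_natCast, ← Real.rpow_natCast, ← Real.rpow_mul (by norm_num),
          ← Real.rpow_mul (by norm_num)] at h2
        norm_num at h2 ⊢
        exact h2
      have h9 : ((y / 2 : ℕ) : ℝ) ^ (39 / 80 : ℝ) ≤ s ^ 39 / 1.4 := by
        have e1 : ((y / 2 : ℕ) : ℝ) ≤ (y : ℝ) / 2 := Nat.cast_div_le
        have e2 : ((y / 2 : ℕ) : ℝ) ^ (39 / 80 : ℝ) ≤ ((y : ℝ) / 2) ^ (39 / 80 : ℝ) :=
          Real.rpow_le_rpow (by positivity) e1 (by norm_num)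
        rw [Real.div_rpow hy0.le (by norm_num), hs39] at e2
        refine e2.trans ?_
        exact div_le_div_of_nonneg_left (by positivity) (by norm_num) h14
      have h10 : t * (10002 * s ^ 79) = 15003 * (a * s ^ 39) := by
        rw [ht, hr]
        field_simp
        ring
      have h11 : t * ∑ n ∈ range (y + 1), W K' n ≤ t * (10002 * s ^ 79) :=
        mul_le_mul_of_nonneg_left hK' ht0.le
      have h12 : 60012 * a * ((y / 2 : ℕ) : ℝ) ^ (39 / 80 : ℝ) ≤ 60012 * a * (s ^ 39 / 1.4) :=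
        mul_le_mul_of_nonneg_left h9 (by positivity)
      have hBr : ((((T M K y).filter (fun n => 2 * n ≤ y)).card : ℕ) : ℝ)
          ≤ ((T M K (y / 2)).card : ℝ) := by exact_mod_cast hB
      have hsr : ((((T M K y).filter (fun n => 2 * n ≤ y)).card : ℕ) : ℝ)
          + ((((T M K y).filter (fun n => ¬ 2 * n ≤ y)).card : ℕ) : ℝ)
          = ((T M K y).card : ℝ) := by exact_mod_cast hsplit
      have has : 0 < a * s ^ 39 := by positivity
      rw [hs39]
      have e13 : 60012 * a * (s ^ 39 / 1.4) = 60012 / 1.4 * (a * s ^ 39) := by ring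
      have e14 : 60012 * a * s ^ 39 = 60012 * (a * s ^ 39) := by ring
      rw [e13] at h12
      rw [e14]
      rw [h10] at h11
      have : (60012 : ℝ) / 1.4 ≤ 42866 := by norm_num
      nlinarith

lemma card_pre (A E : Finset ℕ) (j : ℕ) :
    (A.filter (fun n => g^[j] n ∈ E)).card ≤ E.card := by
  apply Finset.card_le_card_of_injOn (fun n => g^[j] n)
  · intro n hn
    exact (mem_filter.1 (Finset.mem_coe.1 hn)).2
  · exact (g_inj.iterate j).injOn

theorem expansion (M : ℕ) (hM : 1 ≤ M) (A : Finset ℕ) (hA : A ⊆ Icc 1 M) :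
    (A.card : ℝ) ≤ 90012 * (M : ℝ) ^ (79 / 80 : ℝ)
      + Real.log M * ((A.filter (fun n => g n ∉ A)).card : ℝ) := by
  have hM0 : (0 : ℝ) < M := by exact_mod_cast hM
  have hM1 : (1 : ℝ) ≤ M := by exact_mod_cast hM
  have hlog : 0 ≤ Real.log M := Real.log_nonneg hM1
  set K := ⌊Real.log M⌋₊ with hKdef
  set E := A.filter (fun n => g n ∉ A) with hE
  have hKr : (K : ℝ) ≤ Real.log M := Nat.floor_le hlog
  have hK : ∀ K' : ℕ, (lam⁻¹) ^ K' ≤ (M : ℝ) ^ (1 / 80 : ℝ) → K' ≤ K := by
    intro K' h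
    have hl0 : (0 : ℝ) < lam⁻¹ := by unfold lam; norm_num
    have h1 := Real.log_le_log (by positivity) h
    rw [Real.log_pow, Real.log_rpow hM0] at h1
    have h2 : (1 : ℝ) / 80 ≤ Real.log lam⁻¹ := by
      have := Real.one_sub_inv_le_log_of_pos hl0
      rw [inv_inv] at this
      have h3 : lam ≤ 79 / 80 := by unfold lam; norm_num
      linarith
    have h4 : (K' : ℝ) * (1 / 80) ≤ K' * Real.log lam⁻¹ :=
      mul_le_mul_of_nonneg_left h2 (by positivity)
    apply Nat.le_floor
    linarith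
  have hsplit := Finset.card_filter_add_card_filter_not (s := A)
    (fun n => ∀ i ≤ K, g^[i] n ∈ A)
  have h1 : (A.filter (fun n => ¬ ∀ i ≤ K, g^[i] n ∈ A)).card ≤ K * E.card := by
    have hsub : A.filter (fun n => ¬ ∀ i ≤ K, g^[i] n ∈ A) ⊆
        (range K).biUnion (fun j => A.filter (fun n => g^[j] n ∈ E)) := by
      intro n hn
      obtain ⟨hnA, hn2⟩ := mem_filter.1 hn
      rw [mem_biUnion]
      by_contra hc
      push Not at hc
      apply hn2
      intro i
      induction i with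
      | zero => intro _; exact hnA
      | succ i ih =>
        intro hi
        have h3 := ih (by omega)
        have h4 := hc i (mem_range.2 (by omega))
        rw [mem_filter, not_and] at h4
        have h5 := h4 hnA
        rw [hE, mem_filter, not_and, not_not] at h5
        rw [Function.iterate_succ_apply']
        exact h5 h3
    refine (card_le_card hsub).trans (card_biUnion_le.trans ?_)
    calc ∑ j ∈ range K, (A.filter (fun n => g^[j] n ∈ E)).card ≤ ∑ _j ∈ range K, E.card :=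
          sum_le_sum (fun j _ => card_pre A E j)
      _ = K * E.card := by rw [sum_const, card_range, smul_eq_mul]
  have h2 : (A.filter (fun n => ∀ i ≤ K, g^[i] n ∈ A)).card
      ≤ (T M K M).card + (K + 1) * 10000 := by
    have hsub : A.filter (fun n => ∀ i ≤ K, g^[i] n ∈ A) ⊆ T M K M ∪
        (range (K + 1)).biUnion (fun j => A.filter (fun n => g^[j] n ∈ range 10000)) := by
      intro n hn
      obtain ⟨hnA, hn2⟩ := mem_filter.1 hn
      rw [mem_union]
      by_cases hd : ∀ i ≤ K, 10000 ≤ g^[i] n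
      · left
        unfold T
        rw [mem_filter]
        exact ⟨hA hnA, fun i hi => ⟨hd i hi, (mem_Icc.1 (hA (hn2 i hi))).2⟩⟩
      · right
        push Not at hd
        obtain ⟨i, hi, hi2⟩ := hd
        rw [mem_biUnion]
        exact ⟨i, mem_range.2 (by omega), mem_filter.2 ⟨hnA, mem_range.2 hi2⟩⟩
    refine (card_le_card hsub).trans ((card_union_le _ _).trans ?_)
    apply Nat.add_le_add_left
    refine card_biUnion_le.trans ?_
    calc ∑ j ∈ range (K + 1), (A.filter (fun n => g^[j] n ∈ range 10000)).card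
          ≤ ∑ _j ∈ range (K + 1), (range 10000).card :=
          sum_le_sum (fun j _ => card_pre A _ j)
      _ = (K + 1) * 10000 := by rw [sum_const, card_range, card_range, smul_eq_mul]
  have h3 := card_T M K hM hK M le_rfl
  have h4 : (M : ℝ) ^ (1 / 2 : ℝ) * (M : ℝ) ^ (39 / 80 : ℝ) = (M : ℝ) ^ (79 / 80 : ℝ) := by
    rw [← Real.rpow_add hM0]
    norm_num
  have h5 : Real.log M ≤ 2 * (M : ℝ) ^ (79 / 80 : ℝ) := by
    have := Real.log_le_rpow_div hM0.le (show (0 : ℝ) < 79 / 80 by norm_num)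
    have hp : 0 < (M : ℝ) ^ (79 / 80 : ℝ) := Real.rpow_pos_of_pos hM0 _
    have e : (M : ℝ) ^ (79 / 80 : ℝ) / (79 / 80) = 80 / 79 * (M : ℝ) ^ (79 / 80 : ℝ) := by ring
    rw [e] at this
    linarith
  have h6 : (1 : ℝ) ≤ (M : ℝ) ^ (79 / 80 : ℝ) := Real.one_le_rpow hM1 (by norm_num)
  have h7 : (A.card : ℝ) ≤ K * (E.card : ℝ) + (((T M K M).card : ℝ) + (K + 1) * 10000) := by
    have : A.card ≤ K * E.card + ((T M K M).card + (K + 1) * 10000) := by omega
    exact_mod_cast this
  have h8 : (K : ℝ) * (E.card : ℝ) ≤ Real.log M * (E.card : ℝ) :=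
    mul_le_mul_of_nonneg_right hKr (by positivity)
  rw [mul_assoc, h4] at h3
  linarith

theorem orbits (M : ℕ) (hM : 1 ≤ M) (a N : ℕ) (ha : 1 ≤ a) (h : ∀ i < N, g^[i] a ≤ M) :
    ((((range N).image (fun i => g^[i] a)).card : ℕ) : ℝ)
      ≤ 90014 * (M : ℝ) ^ (79 / 80 : ℝ) := by
  have hM0 : (0 : ℝ) < M := by exact_mod_cast hM
  have hM1 : (1 : ℝ) ≤ M := by exact_mod_cast hM
  have hlog : 0 ≤ Real.log M := Real.log_nonneg hM1
  have hpos : ∀ i, 1 ≤ g^[i] a := by
    intro i
    induction i with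
    | zero => exact ha
    | succ i ih =>
      rw [Function.iterate_succ_apply']
      exact g_pos _ ih
  set A := (range N).image (fun i => g^[i] a) with hA
  have hAs : A ⊆ Icc 1 M := by
    intro n hn
    rw [hA, mem_image] at hn
    obtain ⟨i, hi, rfl⟩ := hn
    exact mem_Icc.2 ⟨hpos i, h i (mem_range.1 hi)⟩
  have h1 := expansion M hM A hAs
  have h2 : (A.filter (fun n => g n ∉ A)).card ≤ 1 := by
    rw [card_le_one]
    have key : ∀ n ∈ A.filter (fun n => g n ∉ A), n = g^[N - 1] a := by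
      intro n hn
      obtain ⟨hnA, hn2⟩ := mem_filter.1 hn
      rw [hA, mem_image] at hnA
      obtain ⟨i, hi, rfl⟩ := hnA
      have hi' := mem_range.1 hi
      by_contra hne
      apply hn2
      have hne' : i ≠ N - 1 := by
        intro h
        exact hne (by rw [h])
      rw [hA, mem_image]
      refine ⟨i + 1, mem_range.2 (by omega), ?_⟩
      exact Function.iterate_succ_apply' g i a
    intro x hx y hy
    rw [key x hx, key y hy]
  have h3 : ((A.filter (fun n => g n ∉ A)).card : ℝ) ≤ 1 := by exact_mod_cast h2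
  have h4 : Real.log M * ((A.filter (fun n => g n ∉ A)).card : ℝ) ≤ Real.log M * 1 :=
    mul_le_mul_of_nonneg_left h3 hlog
  have h5 : Real.log M ≤ 2 * (M : ℝ) ^ (79 / 80 : ℝ) := by
    have := Real.log_le_rpow_div hM0.le (show (0 : ℝ) < 79 / 80 by norm_num)
    have hp : 0 < (M : ℝ) ^ (79 / 80 : ℝ) := Real.rpow_pos_of_pos hM0 _
    have e : (M : ℝ) ^ (79 / 80 : ℝ) / (79 / 80) = 80 / 79 * (M : ℝ) ^ (79 / 80 : ℝ) := by ring
    rw [e] at this
    linarith
  linarith

end GPerm
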