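import Mathlib
import Pool.Agent.Lib.GPerm.Final

/-!
# The sharp form of the expansion inequality
-/

open Finset

namespace GPerm

lemma main_total (K X : ℕ) : ∑ n ∈ range (X + 1), W K n ≤ lam ^ K * X + 10000 * Bt ^ K := by
  have e0 : S X 1 0 = range (X + 1) := by
    ext n
    rw [mem_S, mem_range, Nat.lt_succ_iff]
    simp [Nat.mod_one]
  have h0 := main_bd K X 1 0 (by norm_num) (by norm_num)
  rw [e0] at h0
  simpa using h0

lemma T_zero (M K : ℕ) : T M K 0 = ∅ := by
  unfold T
  simp

theorem card_T2 (M K : ℕ) (hM : 1 ≤ M) (y : ℕ) : y ≤ M →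
    ((T M K y).card : ℝ) ≤ 6 * lam ^ K * (Real.sqrt M * Real.sqrt y)
      + 15000 * Bt ^ K * Real.sqrt M * ((Nat.log 2 y : ℕ) + 1) := by
  have hlam : 0 < lam := by unfold lam; norm_num
  have hBt : 0 < Bt := by unfold Bt; norm_num
  induction y using Nat.strong_induction_on with
  | _ y ih =>
    intro hyM
    rcases Nat.eq_zero_or_pos y with h0 | hy
    · subst h0
      rw [T_zero, card_empty, Nat.cast_zero]
      positivity
    · have hy1 : (1 : ℝ) ≤ y := by exact_mod_cast hy
      have hM0 : (0 : ℝ) < M := by exact_mod_cast hM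
      set a : ℝ := Real.sqrt M with ha
      set r : ℝ := Real.sqrt y with hr
      have ha2 : a ^ 2 = M := Real.sq_sqrt hM0.le
      have hr2 : r ^ 2 = y := Real.sq_sqrt (by linarith)
      have ha0 : 0 < a := Real.sqrt_pos.2 hM0
      have hr1 : 1 ≤ r := Real.one_le_sqrt.2 hy1
      have hr0 : 0 < r := by linarith
      have hL : 0 < lam ^ K := by positivity
      have hB' : 0 < Bt ^ K := by positivity
      have hsplit := Finset.card_filter_add_card_filter_not (s := T M K y)
        (fun n => 2 * n ≤ y)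
      have hB : ((T M K y).filter (fun n => 2 * n ≤ y)).card ≤ (T M K (y / 2)).card := by
        apply card_le_card
        intro n hn
        have h1 := mem_filter.1 hn
        have h2 := mem_filter.1 h1.1
        have h3 := mem_Icc.1 h2.1
        have h4 := h1.2
        unfold T
        rw [mem_filter, mem_Icc]
        exact ⟨⟨h3.1, by omega⟩, h2.2⟩
      set t : ℝ := 1.5 * a / r with ht
      have ht0 : 0 < t := by rw [ht]; positivity
      have hA : ((((T M K y).filter (fun n => ¬ 2 * n ≤ y)).card : ℕ) : ℝ)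
          ≤ t * ∑ n ∈ range (y + 1), W K n := by
        apply markov K y _ t ht0
        · intro n hn
          have h1 := mem_filter.1 hn
          have h2 := mem_filter.1 h1.1
          have h3 := mem_Icc.1 h2.1
          rw [mem_range]
          omega
        · intro n hn
          have h1 := mem_filter.1 hn
          have h2 := mem_filter.1 h1.1
          have h3 := orbit_bd K n (fun i hi => (h2.2 i hi.le).1)
          have h4 : ((g^[K] n : ℕ) : ℝ) ≤ M := by exact_mod_cast (h2.2 K le_rfl).2
          have hW := W_nonneg K n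
          have h5 : (y : ℝ) ≤ 2 * n := by
            have : y ≤ 2 * n := by
              have := h1.2
              omega
            exact_mod_cast this
          have h6 : (n : ℝ) ≤ M * W K n ^ 2 :=
            h3.trans (mul_le_mul_of_nonneg_right h4 (by positivity))
          have h7 : r ^ 2 ≤ 2 * (a ^ 2 * W K n ^ 2) := by
            rw [hr2, ha2]
            linarith
          have h8 : 1 < (t * W K n) ^ 2 := by
            have e : (t * W K n) ^ 2 = 2.25 * (a ^ 2 * W K n ^ 2) / r ^ 2 := by
              rw [ht]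
              field_simp
              ring
            rw [e, lt_div_iff₀ (by positivity)]
            have : 0 < r ^ 2 := by positivity
            linarith
          by_contra hc
          push Not at hc
          have : (t * W K n) ^ 2 ≤ 1 := pow_le_one₀ (mul_nonneg ht0.le hW) hc.le
          linarith
      have hhalf : ((T M K (y / 2)).card : ℝ)
          ≤ 6 * lam ^ K * (a * (0.71 * r)) + 15000 * Bt ^ K * a * (Nat.log 2 y : ℕ) := by
        rcases Nat.lt_or_ge y 2 with hlt | hge
        · have hy2 : y / 2 = 0 := by omega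
          rw [hy2, T_zero, card_empty, Nat.cast_zero]
          positivity
        · have hi := ih (y / 2) (Nat.div_lt_self hy (by norm_num)) (by omega)
          have h1 : Real.sqrt ((y / 2 : ℕ) : ℝ) ≤ 0.71 * r := by
            rw [Real.sqrt_le_left (by positivity)]
            have : ((y / 2 : ℕ) : ℝ) ≤ (y : ℝ) / 2 := Nat.cast_div_le
            rw [mul_pow, hr2]
            norm_num at this ⊢
            linarith
          have h2 : Nat.log 2 (y / 2) + 1 = Nat.log 2 y := by
            rw [Nat.log_div_base]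
            have : 1 ≤ Nat.log 2 y := Nat.log_pos (by norm_num) hge
            omega
          have h3 : ((Nat.log 2 (y / 2) : ℕ) : ℝ) + 1 = (Nat.log 2 y : ℕ) := by exact_mod_cast h2
          rw [h3] at hi
          refine hi.trans ?_
          have h4 : 6 * lam ^ K * (a * Real.sqrt ((y / 2 : ℕ) : ℝ))
              ≤ 6 * lam ^ K * (a * (0.71 * r)) :=
            mul_le_mul_of_nonneg_left (mul_le_mul_of_nonneg_left h1 ha0.le) (by positivity)
          linarith
      have h10 : t * (lam ^ K * y + 10000 * Bt ^ K)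
          ≤ 1.5 * (lam ^ K * (a * r)) + 15000 * (Bt ^ K * a) := by
        have e : t * (lam ^ K * y + 10000 * Bt ^ K)
            = 1.5 * (lam ^ K * (a * r)) + 15000 * (Bt ^ K * a) / r := by
          rw [ht, ← hr2]
          field_simp
          ring
        rw [e]
        have : 15000 * (Bt ^ K * a) / r ≤ 15000 * (Bt ^ K * a) :=
          div_le_self (by positivity) hr1
        linarith
      have h11 : t * ∑ n ∈ range (y + 1), W K n ≤ t * (lam ^ K * y + 10000 * Bt ^ K) :=
        mul_le_mul_of_nonneg_left (main_total K y) ht0.le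
      have hBr : ((((T M K y).filter (fun n => 2 * n ≤ y)).card : ℕ) : ℝ)
          ≤ ((T M K (y / 2)).card : ℝ) := by exact_mod_cast hB
      have hsr : ((((T M K y).filter (fun n => 2 * n ≤ y)).card : ℕ) : ℝ)
          + ((((T M K y).filter (fun n => ¬ 2 * n ≤ y)).card : ℕ) : ℝ)
          = ((T M K y).card : ℝ) := by exact_mod_cast hsplit
      have hp : 0 < lam ^ K * (a * r) := by positivity
      have e1 : 6 * lam ^ K * (a * (0.71 * r)) = 4.26 * (lam ^ K * (a * r)) := by ring
      have e2 : 6 * lam ^ K * (a * r) = 6 * (lam ^ K * (a * r)) := by ring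
      have e3 : 15000 * Bt ^ K * a * ((Nat.log 2 y : ℕ) + 1)
          = 15000 * Bt ^ K * a * (Nat.log 2 y : ℕ) + 15000 * (Bt ^ K * a) := by ring
      rw [e1] at hhalf
      rw [e2, e3]
      linarith

theorem card_T3 (M K : ℕ) (hM : 1 ≤ M) (hK : Bt ^ K ≤ (M : ℝ) ^ (2 / 5 : ℝ)) :
    ((T M K M).card : ℝ) ≤ 6 * (lam ^ K * M) + 270000 * (M : ℝ) ^ (79 / 80 : ℝ) := by
  have hM0 : (0 : ℝ) < M := by exact_mod_cast hM
  have hM1 : (1 : ℝ) ≤ M := by exact_mod_cast hM
  have h := card_T2 M K hM M le_rfl
  have e1 : Real.sqrt (M : ℝ) * Real.sqrt M = M := Real.mul_self_sqrt hM0.le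
  rw [e1] at h
  have hp7 : (1 : ℝ) ≤ (M : ℝ) ^ (7 / 80 : ℝ) := Real.one_le_rpow hM1 (by norm_num)
  have hlog : ((Nat.log 2 M : ℕ) : ℝ) + 1 ≤ 18 * (M : ℝ) ^ (7 / 80 : ℝ) := by
    have h1 : 2 ^ Nat.log 2 M ≤ M := Nat.pow_log_le_self 2 (by omega)
    have h2 : ((2 : ℝ)) ^ Nat.log 2 M ≤ M := by exact_mod_cast h1
    have h3 := Real.log_le_log (by positivity) h2
    rw [Real.log_pow] at h3
    have h4 := Real.log_two_gt_d9
    have h5 := Real.log_le_rpow_div hM0.le (show (0 : ℝ) < 7 / 80 by norm_num)
    have e : (M : ℝ) ^ (7 / 80 : ℝ) / (7 / 80) = 80 / 7 * (M : ℝ) ^ (7 / 80 : ℝ) := by ring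
    rw [e] at h5
    have h6 : ((Nat.log 2 M : ℕ) : ℝ) * 0.69 ≤ (Nat.log 2 M : ℕ) * Real.log 2 :=
      mul_le_mul_of_nonneg_left (by linarith) (by positivity)
    have h7 : ((Nat.log 2 M : ℕ) : ℝ) * 0.69 ≤ 80 / 7 * (M : ℝ) ^ (7 / 80 : ℝ) := by linarith
    linarith
  have hs : Real.sqrt (M : ℝ) = (M : ℝ) ^ (1 / 2 : ℝ) := Real.sqrt_eq_rpow _
  have h2 : 15000 * Bt ^ K * Real.sqrt M * ((Nat.log 2 M : ℕ) + 1)
      ≤ 15000 * (M : ℝ) ^ (2 / 5 : ℝ) * (M : ℝ) ^ (1 / 2 : ℝ)
        * (18 * (M : ℝ) ^ (7 / 80 : ℝ)) := by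
    rw [hs]
    have hBt : 0 < Bt := by unfold Bt; norm_num
    gcongr
  have e3 : 15000 * (M : ℝ) ^ (2 / 5 : ℝ) * (M : ℝ) ^ (1 / 2 : ℝ) * (18 * (M : ℝ) ^ (7 / 80 : ℝ))
      = 270000 * (M : ℝ) ^ (79 / 80 : ℝ) := by
    have : (M : ℝ) ^ (79 / 80 : ℝ)
        = (M : ℝ) ^ (2 / 5 : ℝ) * (M : ℝ) ^ (1 / 2 : ℝ) * (M : ℝ) ^ (7 / 80 : ℝ) := by
      rw [← Real.rpow_add hM0, ← Real.rpow_add hM0]
      norm_num
    rw [this]
    ring
  rw [e3] at h2
  linarith

/-- the counting step, for any number `K` of steps -/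
theorem steps (M : ℕ) (A : Finset ℕ) (hA : A ⊆ Icc 1 M) (K : ℕ) :
    (A.card : ℝ) ≤ K * ((A.filter (fun n => g n ∉ A)).card : ℝ)
      + (((T M K M).card : ℝ) + (K + 1) * 10000) := by
  set E := A.filter (fun n => g n ∉ A) with hE
  have hsplit := Finset.card_filter_add_card_filter_not (s := A)
    (fun n => ∀ i ≤ K, g^[i] n ∈ A)
  have h1 : (A.filter (fun n => ¬ ∀ i ≤ K, g^[i] n ∈ A)).card ≤ K * E.card := by
    have hsub : A.filter (fun n => ¬ ∀ i ≤ K, g^[i] n ∈ A) ⊆
        (range K).biUnion (fun j => A.filter (fun n => g^[j] n ∈ E)) := by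
      intro n hn
      obtain ⟨hnA, hn2⟩ := mem_filter.1 hn
      rw [mem_biUnion]
      by_contra hc
      push Not at hc
      apply hn2
      intro i
      induction i with
      | zero => intro _; exact hnA
      | succ i ih =>
        intro hi
        have h3 := ih (by omega)
        have h4 := hc i (mem_range.2 (by omega))
        rw [mem_filter, not_and] at h4
        have h5 := h4 hnA
        rw [hE, mem_filter, not_and, not_not] at h5
        rw [Function.iterate_succ_apply']
        exact h5 h3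
    refine (card_le_card hsub).trans (card_biUnion_le.trans ?_)
    calc ∑ j ∈ range K, (A.filter (fun n => g^[j] n ∈ E)).card ≤ ∑ _j ∈ range K, E.card :=
          sum_le_sum (fun j _ => card_pre A E j)
      _ = K * E.card := by rw [sum_const, card_range, smul_eq_mul]
  have h2 : (A.filter (fun n => ∀ i ≤ K, g^[i] n ∈ A)).card
      ≤ (T M K M).card + (K + 1) * 10000 := by
    have hsub : A.filter (fun n => ∀ i ≤ K, g^[i] n ∈ A) ⊆ T M K M ∪
        (range (K + 1)).biUnion (fun j => A.filter (fun n => g^[j] n ∈ range 10000)) := by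
      intro n hn
      obtain ⟨hnA, hn2⟩ := mem_filter.1 hn
      rw [mem_union]
      by_cases hd : ∀ i ≤ K, 10000 ≤ g^[i] n
      · left
        unfold T
        rw [mem_filter]
        exact ⟨hA hnA, fun i hi => ⟨hd i hi, (mem_Icc.1 (hA (hn2 i hi))).2⟩⟩
      · right
        push Not at hd
        obtain ⟨i, hi, hi2⟩ := hd
        rw [mem_biUnion]
        exact ⟨i, mem_range.2 (by omega), mem_filter.2 ⟨hnA, mem_range.2 hi2⟩⟩
    refine (card_le_card hsub).trans ((card_union_le _ _).trans ?_)
    apply Nat.add_le_add_left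
    refine card_biUnion_le.trans ?_
    calc ∑ j ∈ range (K + 1), (A.filter (fun n => g^[j] n ∈ range 10000)).card
          ≤ ∑ _j ∈ range (K + 1), (range 10000).card :=
          sum_le_sum (fun j _ => card_pre A _ j)
      _ = (K + 1) * 10000 := by rw [sum_const, card_range, card_range, smul_eq_mul]
  have : A.card ≤ K * E.card + ((T M K M).card + (K + 1) * 10000) := by omega
  exact_mod_cast this

end GPerm
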