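import Mathlib
import Pool.Agent.Lib.GPerm.Sharp

/-!
# The sharp expansion inequality and the extremal sets
-/

open Finset

namespace GPerm

theorem sharp (M : ℕ) (hM : 1 ≤ M) (A : Finset ℕ) (hA : A ⊆ Icc 1 M)
    (e : ℕ) (he : (A.filter (fun n => g n ∉ A)).card = e) :
    (A.card : ℝ) ≤ 2000000 * (M : ℝ) ^ (79 / 80 : ℝ)
      + 2000000 * ((e : ℝ) * Real.log (2 * M / e)) := by
  have hM0 : (0 : ℝ) < M := by exact_mod_cast hM
  have hM1 : (1 : ℝ) ≤ M := by exact_mod_cast hM
  have hX1 : (1 : ℝ) ≤ (M : ℝ) ^ (79 / 80 : ℝ) := Real.one_le_rpow hM1 (by norm_num)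
  have hold := expansion M hM A hA
  rw [he] at hold
  rcases Nat.eq_zero_or_pos e with h0 | hpos
  · subst h0
    simp only [Nat.cast_zero, mul_zero, add_zero, zero_mul] at hold ⊢
    linarith
  · have he1 : (1 : ℝ) ≤ e := by exact_mod_cast hpos
    have he0 : (0 : ℝ) < e := by linarith
    have heM : e ≤ M := by
      rw [← he]
      calc (A.filter (fun n => g n ∉ A)).card ≤ A.card := card_le_card (filter_subset _ _)
        _ ≤ (Icc 1 M).card := card_le_card hA
        _ = M := by rw [Nat.card_Icc, Nat.add_sub_cancel]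
    have heM' : (e : ℝ) ≤ M := by exact_mod_cast heM
    set R : ℝ := (M : ℝ) / e with hR
    have hR1 : 1 ≤ R := by rw [hR, le_div_iff₀ he0]; linarith
    have hR0 : 0 < R := by linarith
    have hlogR : 0 ≤ Real.log R := Real.log_nonneg hR1
    have hl2R : Real.log (2 * M / e) = Real.log 2 + Real.log R := by
      rw [mul_div_assoc, Real.log_mul (by norm_num) (by positivity)]
    have hlog2 : 0.69 ≤ Real.log 2 := by
      have := Real.log_two_gt_d9
      linarith
    have hlam : 0 < lam := by unfold lam; norm_num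
    have hrho : 1 < lam⁻¹ := by unfold lam; norm_num
    have hrho2 : lam⁻¹ ≤ 2 := by unfold lam; norm_num
    have hlogrho : (1 : ℝ) / 80 ≤ Real.log lam⁻¹ := by
      have := Real.one_sub_inv_le_log_of_pos (show (0 : ℝ) < lam⁻¹ by linarith)
      rw [inv_inv] at this
      have h3 : lam ≤ 79 / 80 := by unfold lam; norm_num
      linarith
    have hBt : 1 < Bt := by unfold Bt; norm_num
    obtain ⟨K1, hK1, hK1'⟩ := exists_nat_pow_near hR1 hrho
    have hM25 : (1 : ℝ) ≤ (M : ℝ) ^ (2 / 5 : ℝ) := Real.one_le_rpow hM1 (by norm_num)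
    obtain ⟨K0, hK0, hK0'⟩ := exists_nat_pow_near hM25 hBt
    have hK1log : (K1 : ℝ) ≤ 80 * Real.log R := by
      have h1 := Real.log_le_log (by positivity) hK1
      rw [Real.log_pow] at h1
      have h4 : (K1 : ℝ) * (1 / 80) ≤ K1 * Real.log lam⁻¹ :=
        mul_le_mul_of_nonneg_left hlogrho (by positivity)
      linarith
    have hlogRM : Real.log R ≤ Real.log M := by
      apply Real.log_le_log hR0
      rw [hR]
      exact div_le_self hM0.le he1
    have hlogM : Real.log M ≤ 2 * (M : ℝ) ^ (79 / 80 : ℝ) := by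
      have := Real.log_le_rpow_div hM0.le (show (0 : ℝ) < 79 / 80 by norm_num)
      have e' : (M : ℝ) ^ (79 / 80 : ℝ) / (79 / 80) = 80 / 79 * (M : ℝ) ^ (79 / 80 : ℝ) := by ring
      rw [e'] at this
      linarith
    rw [hl2R]
    rcases Nat.lt_or_ge K0 K1 with hlt | hge
    · -- few exits: the first form
      have h1 : (M : ℝ) ^ (2 / 5 : ℝ) ≤ Bt ^ K1 :=
        hK0'.le.trans (pow_le_pow_right₀ hBt.le hlt)
      have h2 := Real.log_le_log (by positivity) h1
      rw [Real.log_pow, Real.log_rpow hM0] at h2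
      have h3 : Real.log Bt ≤ 6 / 5 := by
        have h5 : Bt ^ 5 ≤ Real.exp 6 := by
          have e6 : Real.exp 6 = Real.exp 1 ^ 6 := by
            rw [← Real.exp_nat_mul]
            norm_num
          rw [e6]
          have h7 : (2.7 : ℝ) ≤ Real.exp 1 := by
            have := Real.exp_one_gt_d9
            linarith
          calc Bt ^ 5 ≤ (2.7 : ℝ) ^ 6 := by unfold Bt; norm_num
            _ ≤ Real.exp 1 ^ 6 := pow_le_pow_left₀ (by norm_num) h7 6
        have h6 := Real.log_le_log (by positivity) h5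
        rw [Real.log_pow, Real.log_exp] at h6
        push_cast at h6
        linarith
      have h4 : (K1 : ℝ) * Real.log Bt ≤ K1 * (6 / 5) :=
        mul_le_mul_of_nonneg_left h3 (by positivity)
      have h5 : Real.log M ≤ 240 * Real.log R := by linarith
      have h6 : Real.log M * (e : ℝ) ≤ 240 * Real.log R * e :=
        mul_le_mul_of_nonneg_right h5 he0.le
      have h7 : 0 ≤ (e : ℝ) * Real.log R := mul_nonneg he0.le hlogR
      have h8 : 0 ≤ (e : ℝ) * Real.log 2 := mul_nonneg he0.le (by linarith)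
      nlinarith
    · have hBK : Bt ^ K1 ≤ (M : ℝ) ^ (2 / 5 : ℝ) :=
        (pow_le_pow_right₀ hBt.le hge).trans hK0
      have h1 := steps M A hA K1
      rw [he] at h1
      have h2 := card_T3 M K1 hM hBK
      have h3 : lam ^ K1 * M ≤ 2 * e := by
        have h4 : lam ^ K1 * R ≤ lam ^ K1 * (lam⁻¹) ^ (K1 + 1) :=
          mul_le_mul_of_nonneg_left hK1'.le (by positivity)
        have h5 : lam ^ K1 * (lam⁻¹) ^ (K1 + 1) = lam⁻¹ := by
          rw [pow_succ, ← mul_assoc, ← mul_pow, mul_inv_cancel₀ hlam.ne', one_pow, one_mul]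
        rw [h5] at h4
        have h6 : (M : ℝ) = R * e := by rw [hR]; field_simp
        rw [h6, ← mul_assoc]
        exact mul_le_mul_of_nonneg_right (h4.trans hrho2) he0.le
      have h4 : (K1 : ℝ) * e ≤ 80 * Real.log R * e :=
        mul_le_mul_of_nonneg_right hK1log he0.le
      have h5 : (K1 : ℝ) ≤ 160 * (M : ℝ) ^ (79 / 80 : ℝ) := by linarith
      have h7 : 0 ≤ (e : ℝ) * Real.log R := mul_nonneg he0.le hlogR
      have h8 : 0.69 * (e : ℝ) ≤ e * Real.log 2 := by nlinarith
      nlinarith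

/-- the elements of the extremal sets -/
def phi (L i s : ℕ) : ℕ := 1 + 3 ^ i * 4 ^ (L - i) * (3 * s + 1)

lemma g_phi (L i s : ℕ) (hi : i < L) : g (phi L i s) = phi L (i + 1) s := by
  unfold phi
  obtain ⟨c, hc⟩ := Nat.exists_eq_add_of_lt hi
  have e1 : L - i = (L - (i + 1)) + 1 := by omega
  rw [e1, pow_succ, pow_succ]
  set u := 3 ^ i * 4 ^ (L - (i + 1)) * (3 * s + 1) with hu
  have e2 : 1 + 3 ^ i * (4 ^ (L - (i + 1)) * 4) * (3 * s + 1) = 1 + 4 * u := by rw [hu]; ring
  have e3 : 1 + 3 ^ i * 3 * 4 ^ (L - (i + 1)) * (3 * s + 1) = 1 + 3 * u := by rw [hu]; ring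
  rw [e2, e3]
  unfold g
  rw [if_neg (by omega)]
  omega

lemma phi_inj (L i i' s s' : ℕ) (h : phi L i s = phi L i' s') :
    i = i' ∧ s = s' := by
  have key : ∀ i i' s s' : ℕ, i < i' →
      3 ^ i * 4 ^ (L - i) * (3 * s + 1) ≠ 3 ^ i' * 4 ^ (L - i') * (3 * s' + 1) := by
    intro i i' s s' hlt he
    obtain ⟨c, hc⟩ := Nat.exists_eq_add_of_lt hlt
    have e1 : 3 ^ i' = 3 ^ i * (3 * 3 ^ c) := by rw [hc]; ring
    rw [e1, mul_assoc, mul_assoc (3 ^ i), mul_assoc (3 ^ i)] at he
    have h2 := Nat.eq_of_mul_eq_mul_left (by positivity) he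
    have h3 : 3 ∣ 4 ^ (L - i) * (3 * s + 1) := by
      rw [h2]
      exact ⟨3 ^ c * (4 ^ (L - i') * (3 * s' + 1)), by ring⟩
    rcases (Nat.Prime.dvd_mul Nat.prime_three).1 h3 with h4 | h4
    · have := Nat.Prime.dvd_of_dvd_pow Nat.prime_three h4
      omega
    · omega
  unfold phi at h
  have h' : 3 ^ i * 4 ^ (L - i) * (3 * s + 1) = 3 ^ i' * 4 ^ (L - i') * (3 * s' + 1) := by omega
  rcases lt_trichotomy i i' with h1 | h1 | h1
  · exact absurd h' (key i i' s s' h1)
  · subst h1
    refine ⟨rfl, ?_⟩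
    have := Nat.eq_of_mul_eq_mul_left (by positivity) h'
    omega
  · exact absurd h'.symm (key i' i s' s h1)

theorem extremal (L M : ℕ) (hM : 4 ^ (L + 1) ≤ M) :
    ∃ A : Finset ℕ, A ⊆ Icc 1 M ∧
      ((A.filter (fun n => g n ∉ A)).card : ℝ) ≤ M / 4 ^ L ∧
      (L : ℝ) * (M / 4 ^ L) ≤ 4 * A.card := by
  have hq : 0 < 4 ^ L := by positivity
  set N := (M - 1) / 4 ^ L with hN
  set N' := (N + 2) / 3 with hN'
  have hMpos : 1 ≤ M := by
    have : 1 ≤ 4 ^ (L + 1) := Nat.one_le_pow _ _ (by norm_num)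
    omega
  have hN1 : 1 ≤ N := by
    rw [hN]
    apply Nat.div_pos _ hq
    have h1 : 4 ^ (L + 1) = 4 * 4 ^ L := by ring
    rw [h1] at hM
    omega
  refine ⟨(range L ×ˢ range N').image (fun p => phi L p.1 p.2), ?_, ?_, ?_⟩
  · intro n hn
    rw [mem_image] at hn
    obtain ⟨⟨i, s⟩, hp, rfl⟩ := hn
    rw [mem_product, mem_range, mem_range] at hp
    rw [mem_Icc]
    have hi : i < L := hp.1
    have hs : s < N' := hp.2
    refine ⟨by unfold phi; omega, ?_⟩
    have h1 : 3 * s + 1 ≤ N := by omega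
    have h2 : 3 ^ i * 4 ^ (L - i) ≤ 4 ^ L := by
      calc 3 ^ i * 4 ^ (L - i) ≤ 4 ^ i * 4 ^ (L - i) :=
            Nat.mul_le_mul_right _ (Nat.pow_le_pow_left (by norm_num) i)
        _ = 4 ^ L := by rw [← pow_add]; congr 1; omega
    have h3 : 3 ^ i * 4 ^ (L - i) * (3 * s + 1) ≤ 4 ^ L * N := Nat.mul_le_mul h2 h1
    have h4 : 4 ^ L * N ≤ M - 1 := by rw [hN]; exact Nat.mul_div_le _ _
    show phi L i s ≤ M
    unfold phi
    omega
  · set A := (range L ×ˢ range N').image (fun p => phi L p.1 p.2) with hA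
    have hsub : A.filter (fun n => g n ∉ A) ⊆ (range N').image (fun s => phi L (L - 1) s) := by
      intro n hn
      obtain ⟨hnA, hn2⟩ := mem_filter.1 hn
      rw [hA, mem_image] at hnA
      obtain ⟨⟨i, s⟩, hp, rfl⟩ := hnA
      rw [mem_product, mem_range, mem_range] at hp
      have hi : i < L := hp.1
      have hs : s < N' := hp.2
      have hil : i = L - 1 := by
        by_contra hc
        apply hn2
        show g (phi L i s) ∈ A
        rw [g_phi L i s hi, hA, mem_image]
        exact ⟨(i + 1, s), mem_product.2 ⟨mem_range.2 (by omega), mem_range.2 hs⟩, rfl⟩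
      rw [mem_image]
      exact ⟨s, mem_range.2 hs, by rw [← hil]⟩
    have h1 : (A.filter (fun n => g n ∉ A)).card ≤ N' :=
      (card_le_card hsub).trans (card_image_le.trans (by rw [card_range]))
    have h2 : (A.filter (fun n => g n ∉ A)).card ≤ N := by omega
    have h3 : ((A.filter (fun n => g n ∉ A)).card : ℝ) ≤ (N : ℝ) := by exact_mod_cast h2
    refine h3.trans ?_
    have h4 : (N : ℝ) ≤ ((M - 1 : ℕ) : ℝ) / ((4 ^ L : ℕ) : ℝ) := Nat.cast_div_le
    refine h4.trans ?_
    push_cast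
    have h5 : ((M - 1 : ℕ) : ℝ) ≤ M := by exact_mod_cast Nat.sub_le M 1
    exact div_le_div_of_nonneg_right h5 (by positivity)
  · have hinj : Set.InjOn (fun p : ℕ × ℕ => phi L p.1 p.2)
        (↑(range L ×ˢ range N') : Set (ℕ × ℕ)) := by
      intro p _ q _ h
      have := phi_inj L p.1 q.1 p.2 q.2 h
      exact Prod.ext this.1 this.2
    rw [card_image_of_injOn hinj, card_product, card_range, card_range]
    have h1 : M ≤ 4 ^ L * (N + 1) := by
      have := Nat.lt_mul_div_succ (M - 1) hq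
      rw [← hN] at this
      have h2 : 4 ^ L * (N + 1) = 4 ^ L * (N + 1) := rfl
      have h3 : M - 1 < 4 ^ L * (N + 1) := this
      omega
    have h2 : (M : ℝ) ≤ 4 ^ L * (N + 1) := by exact_mod_cast h1
    have h3 : (M : ℝ) / 4 ^ L ≤ N + 1 := by
      rw [div_le_iff₀ (by positivity)]
      linarith
    have h4 : (4 : ℝ) ≤ M / 4 ^ L := by
      rw [le_div_iff₀ (by positivity)]
      have : ((4 ^ (L + 1) : ℕ) : ℝ) ≤ M := by exact_mod_cast hM
      push_cast at this
      rw [pow_succ] at this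
      linarith
    have h5 : N ≤ 3 * N' := by omega
    have h6 : (N : ℝ) ≤ 3 * N' := by exact_mod_cast h5
    have h7 : (M : ℝ) / 4 ^ L ≤ 4 * N' := by linarith
    push_cast
    have hL0 : (0 : ℝ) ≤ L := by positivity
    nlinarith

end GPerm
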